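import Mathlib
import Pool.Agent.L7h58.BP.Stm

/-!
# Project BP, part HTA: the inequality of Hall and Tenenbaum
-/

set_option autoImplicit false

namespace Pool.Agent.L7h60.BP

open Finset Pool.Agent.L7h58.BP

/-- the sum of the logarithms of the prime powers -/
theorem pp_log : ∃ K : ℝ, 0 < K ∧ ∀ Y : ℕ,
    ∑ d ∈ (Ioc 0 Y).filter IsPrimePow, Real.log d ≤ K * Y := by
  have hl2 : 0 < Real.log 2 := Real.log_pos (by norm_num)
  have hl4 : 0 < Real.log 4 := Real.log_pos (by norm_num)
  refine ⟨(Real.log 4 + 4) + 32 / Real.log 2, by positivity, fun Y => ?_⟩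
  rcases Nat.eq_zero_or_pos Y with hY | hY
  · subst hY
    simp
  have hY1 : (1 : ℝ) ≤ Y := by exact_mod_cast hY
  have hlog : 0 ≤ Real.log Y := Real.log_nonneg hY1
  have hterm : ∀ d ∈ (Ioc 0 Y).filter IsPrimePow, Real.log d ≤ ArithmeticFunction.vonMangoldt d +
      (if d.Prime then 0 else Real.log Y / Real.log 2 * ArithmeticFunction.vonMangoldt d) := by
    intro d hd
    obtain ⟨hd1, hd2⟩ := mem_filter.1 hd
    rw [mem_Ioc] at hd1
    split_ifs with hp
    · rw [ArithmeticFunction.vonMangoldt_apply_prime hp, add_zero]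
    · obtain ⟨p, k, hp', hk, hpk⟩ := hd2
      have hpp : p.Prime := hp'.nat_prime
      have hL : ArithmeticFunction.vonMangoldt d = Real.log p := by
        rw [← hpk, ArithmeticFunction.vonMangoldt_apply_pow hk.ne', ArithmeticFunction.vonMangoldt_apply_prime hpp]
      have hlp : Real.log 2 ≤ Real.log p := Real.log_le_log (by norm_num) (by exact_mod_cast hpp.two_le)
      have hld : Real.log d = k * Real.log p := by
        rw [← hpk]
        push_cast
        rw [Real.log_pow]
      have hdY : Real.log d ≤ Real.log Y :=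
        Real.log_le_log (by exact_mod_cast hd1.1) (by exact_mod_cast hd1.2)
      have hk2 : (k : ℝ) ≤ Real.log Y / Real.log 2 := by
        rw [le_div_iff₀ hl2]
        have : (k : ℝ) * Real.log 2 ≤ k * Real.log p := mul_le_mul_of_nonneg_left hlp (Nat.cast_nonneg _)
        linarith
      rw [hL, hld]
      have h1 : (k : ℝ) * Real.log p ≤ Real.log Y / Real.log 2 * Real.log p :=
        mul_le_mul_of_nonneg_right hk2 (by linarith)
      linarith
  have h0 : ∀ d : ℕ, 0 ≤ ArithmeticFunction.vonMangoldt d +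
      (if d.Prime then 0 else Real.log Y / Real.log 2 * ArithmeticFunction.vonMangoldt d) := by
    intro d
    have h1 : 0 ≤ ArithmeticFunction.vonMangoldt d := ArithmeticFunction.vonMangoldt_nonneg
    split_ifs
    · linarith
    · have : 0 ≤ Real.log Y / Real.log 2 * ArithmeticFunction.vonMangoldt d := by positivity
      linarith
  refine (sum_le_sum hterm).trans ((sum_le_sum_of_subset_of_nonneg (filter_subset _ _)
    (fun d _ _ => h0 d)).trans ?_)
  rw [sum_add_distrib]
  have h1 : ∑ d ∈ Ioc 0 Y, ArithmeticFunction.vonMangoldt d ≤ (Real.log 4 + 4) * Y := by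
    have h5 := Chebyshev.psi_le_const_mul_self (x := (Y : ℝ)) (Nat.cast_nonneg _)
    unfold Chebyshev.psi at h5
    rw [Nat.floor_natCast] at h5
    exact h5
  have h2 : ∑ d ∈ Ioc 0 Y, (if d.Prime then 0 else Real.log Y / Real.log 2 * ArithmeticFunction.vonMangoldt d) =
      Real.log Y / Real.log 2 * (Chebyshev.psi Y - Chebyshev.theta Y) := by
    rw [Chebyshev.psi_sub_theta_eq_sum_not_prime, Nat.floor_natCast, mul_sum, sum_filter]
    refine sum_congr rfl fun d _ => ?_
    by_cases hp : d.Prime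
    · simp [hp]
    · simp [hp]
  have h3 := Chebyshev.psi_sub_theta_le hY1
  have h4 : Real.log Y ^ 2 ≤ 16 * √(Y : ℝ) := by
    have h5 : Real.log Y ≤ (Y : ℝ) ^ ((1 : ℝ) / 4) / (1 / 4) :=
      Real.log_le_rpow_div (by linarith) (by norm_num)
    have h6 : ((Y : ℝ) ^ ((1 : ℝ) / 4)) ^ 2 = √(Y : ℝ) := by
      rw [← Real.rpow_natCast, ← Real.rpow_mul (by linarith), Real.sqrt_eq_rpow]
      norm_num
    calc Real.log Y ^ 2 ≤ ((Y : ℝ) ^ ((1 : ℝ) / 4) / (1 / 4)) ^ 2 := pow_le_pow_left₀ hlog h5 2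
      _ = 16 * √(Y : ℝ) := by rw [div_pow, h6]; ring
  have h5 : Real.log Y / Real.log 2 * (Chebyshev.psi Y - Chebyshev.theta Y) ≤ 32 / Real.log 2 * Y := by
    calc Real.log Y / Real.log 2 * (Chebyshev.psi Y - Chebyshev.theta Y)
        ≤ Real.log Y / Real.log 2 * (2 * √(Y : ℝ) * Real.log Y) :=
          mul_le_mul_of_nonneg_left h3 (by positivity)
      _ = 2 / Real.log 2 * (√(Y : ℝ) * Real.log Y ^ 2) := by ring
      _ ≤ 2 / Real.log 2 * (√(Y : ℝ) * (16 * √(Y : ℝ))) := by gcongr
      _ = 32 / Real.log 2 * (√(Y : ℝ) * √(Y : ℝ)) := by ring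
      _ = 32 / Real.log 2 * Y := by rw [Real.mul_self_sqrt (by linarith)]
  rw [h2]
  linarith

/-- the summand -/
noncomputable def GG (f : ℕ → ℝ) (m d : ℕ) : ℝ := by
  classical exact if IsPrimePow d then 2 * f m * Real.log d else 0

lemma GG_nonneg {f : ℕ → ℝ} (hf : ∀ n, 0 ≤ f n) (m d : ℕ) : 0 ≤ GG f m d := by
  unfold GG
  split_ifs
  · exact mul_nonneg (mul_nonneg (by norm_num) (hf _)) (Real.log_natCast_nonneg _)
  · exact le_rfl

/-- one integer -/
theorem one_int {f : ℕ → ℝ} (hf : ∀ n, 0 ≤ f n) (hm : ∀ m n, Nat.Coprime m n → f (m * n) = f m * f n)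
    (h2 : ∀ p k, p.Prime → 1 ≤ k → f (p ^ k) ≤ 2) (n : ℕ) (hn : n ≠ 0) :
    f n * Real.log n ≤ ∑ m ∈ n.divisors, GG f m (n / m) := by
  have hinj : Set.InjOn (fun p => n / p ^ n.factorization p) (n.primeFactors : Set ℕ) := by
    intro p hp q hq hpq
    simp only at hpq
    have hp' := Nat.prime_of_mem_primeFactors hp
    have hq' := Nat.prime_of_mem_primeFactors hq
    by_contra hne
    have h1 : ¬ p ∣ n / p ^ n.factorization p := Nat.not_dvd_ordCompl hp' hn
    rw [hpq] at h1
    apply h1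
    have h3 : Nat.Coprime p (q ^ n.factorization q) :=
      Nat.Coprime.pow_right _ ((Nat.coprime_primes hp' hq').2 hne)
    have h4 : p ∣ q ^ n.factorization q * (n / q ^ n.factorization q) := by
      rw [Nat.ordProj_mul_ordCompl_eq_self]
      exact Nat.dvd_of_mem_primeFactors hp
    exact h3.dvd_of_dvd_mul_left h4
  have h1 : f n * Real.log n = ∑ p ∈ n.primeFactors, f n * Real.log ((p ^ n.factorization p : ℕ) : ℝ) := by
    rw [← mul_sum, Real.log_nat_eq_sum_factorization, Finsupp.sum, Nat.support_factorization]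
    congr 1
    refine sum_congr rfl fun p _ => ?_
    push_cast
    rw [Real.log_pow]
  have h3 : ∀ p ∈ n.primeFactors, f n * Real.log ((p ^ n.factorization p : ℕ) : ℝ) ≤
      GG f (n / p ^ n.factorization p) (n / (n / p ^ n.factorization p)) := by
    intro p hp
    have hp' := Nat.prime_of_mem_primeFactors hp
    have hv : 1 ≤ n.factorization p :=
      (hp'.dvd_iff_one_le_factorization hn).1 (Nat.dvd_of_mem_primeFactors hp)
    have e1 : n / (n / p ^ n.factorization p) = p ^ n.factorization p :=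
      Nat.div_div_self (Nat.ordProj_dvd n p) hn
    have hpp : IsPrimePow (p ^ n.factorization p) := hp'.isPrimePow.pow (by omega)
    have e2 : f n = f (p ^ n.factorization p) * f (n / p ^ n.factorization p) := by
      rw [← hm _ _ (Nat.Coprime.pow_left _ (Nat.coprime_ordCompl hp' hn)), Nat.ordProj_mul_ordCompl_eq_self]
    unfold GG
    rw [e1, if_pos hpp]
    have h4 : 0 ≤ Real.log ((p ^ n.factorization p : ℕ) : ℝ) := Real.log_natCast_nonneg _
    apply mul_le_mul_of_nonneg_right _ h4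
    rw [e2]
    exact mul_le_mul_of_nonneg_right (h2 p _ hp' hv) (hf _)
  rw [h1]
  refine (sum_le_sum h3).trans ?_
  have h4 : ∑ p ∈ n.primeFactors, GG f (n / p ^ n.factorization p) (n / (n / p ^ n.factorization p)) =
      ∑ m ∈ n.primeFactors.image (fun p => n / p ^ n.factorization p), GG f m (n / m) :=
    (sum_image (f := fun m => GG f m (n / m)) hinj).symm
  rw [h4]
  refine sum_le_sum_of_subset_of_nonneg ?_ (fun m _ _ => GG_nonneg hf _ _)
  intro m hm'
  obtain ⟨p, -, rfl⟩ := mem_image.1 hm'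
  exact Nat.mem_divisors.2 ⟨Nat.ordCompl_dvd n p, hn⟩

/-- **part HTA** -/
theorem s_HTA : S_HTA := by
  obtain ⟨K, hK, hpp⟩ := pp_log
  refine ⟨2 * K + 1, by positivity, fun f hf hf1 hm h2 X hX => ?_⟩
  have hX0 : (0 : ℝ) < X := by exact_mod_cast (by omega : 0 < X)
  have hlog : 0 < Real.log X := Real.log_pos (by exact_mod_cast (by omega : 1 < X))
  have h1 : ∑ n ∈ Icc 1 X, f n * Real.log n ≤ ∑ n ∈ Icc 1 X, ∑ m ∈ n.divisors, GG f m (n / m) :=
    sum_le_sum fun n hn => one_int hf hm h2 n (by have := (mem_Icc.1 hn).1; omega)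
  have h3 : ∑ m ∈ Icc 1 X, ∑ n ∈ m.divisors, GG f n (m / n) =
      ∑ n ∈ Icc 1 X, ∑ m ∈ (Icc 1 X).filter (fun m => n ∣ m), GG f n (m / n) := by
    apply Finset.sum_comm'
    intro m n
    simp only [Finset.mem_Icc, Nat.mem_divisors, Finset.mem_filter]
    constructor
    · rintro ⟨⟨h1, h2⟩, h3, h4⟩
      have := Nat.le_of_dvd (by omega) h3
      have h5 : 0 < n := Nat.pos_of_dvd_of_pos h3 (by omega)
      exact ⟨⟨⟨h1, h2⟩, h3⟩, by omega, by omega⟩
    · rintro ⟨⟨⟨h1, h2⟩, h3⟩, h4, h5⟩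
      exact ⟨⟨h1, h2⟩, h3, by omega⟩
  have h4 : ∀ n ∈ Icc 1 X, ∑ m ∈ (Icc 1 X).filter (fun m => n ∣ m), GG f n (m / n) ≤
      2 * K * X * (f n / n) := by
    intro n hn
    have hn1 : 1 ≤ n := (Finset.mem_Icc.mp hn).1
    have hn0 : (0 : ℝ) < n := by exact_mod_cast hn1
    have h5 : ∑ m ∈ (Icc 1 X).filter (fun m => n ∣ m), GG f n (m / n) =
        ∑ d ∈ Ioc 0 (X / n), GG f n d := by
      apply Finset.sum_nbij' (fun m => m / n) (fun d => d * n)
      · intro m hm
        simp only [Finset.mem_filter, Finset.mem_Icc] at hm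
        obtain ⟨⟨h1, h2⟩, h3⟩ := hm
        simp only [Finset.mem_Ioc]
        exact ⟨Nat.div_pos (Nat.le_of_dvd (by omega) h3) (by omega), Nat.div_le_div_right h2⟩
      · intro d hd
        simp only [Finset.mem_Ioc] at hd
        simp only [Finset.mem_filter, Finset.mem_Icc]
        refine ⟨⟨Nat.mul_pos hd.1 (by omega), ?_⟩, Dvd.intro_left _ rfl⟩
        exact (Nat.le_div_iff_mul_le (by omega)).mp hd.2
      · intro m hm
        simp only [Finset.mem_filter] at hm
        exact Nat.div_mul_cancel hm.2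
      · intro d _
        exact Nat.mul_div_cancel _ (by omega)
      · intro m _; rfl
    have h6 : ∑ d ∈ Ioc 0 (X / n), GG f n d =
        2 * f n * ∑ d ∈ (Ioc 0 (X / n)).filter IsPrimePow, Real.log d := by
      classical
      rw [mul_sum, sum_filter]
      refine sum_congr rfl fun d _ => ?_
      unfold GG
      by_cases hd : IsPrimePow d
      · simp only [if_pos hd]
      · simp only [if_neg hd]
    rw [h5, h6]
    have h7 := hpp (X / n)
    have h8 : ((X / n : ℕ) : ℝ) ≤ X / n := Nat.cast_div_le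
    calc 2 * f n * ∑ d ∈ (Ioc 0 (X / n)).filter IsPrimePow, Real.log d ≤ 2 * f n * (K * (X / n)) := by
          apply mul_le_mul_of_nonneg_left _ (mul_nonneg (by norm_num) (hf n))
          exact h7.trans (mul_le_mul_of_nonneg_left h8 hK.le)
      _ = 2 * K * X * (f n / n) := by ring
  have h5 : ∑ n ∈ Icc 1 X, f n * Real.log n ≤ 2 * K * X * ∑ n ∈ Icc 1 X, f n / n := by
    refine h1.trans ?_
    rw [h3, mul_sum]
    exact sum_le_sum h4
  have h6 : (∑ n ∈ Icc 1 X, f n) * Real.log X ≤
      ∑ n ∈ Icc 1 X, f n * Real.log n + X * ∑ n ∈ Icc 1 X, f n / n := by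
    rw [Finset.sum_mul, Finset.mul_sum, ← Finset.sum_add_distrib]
    refine Finset.sum_le_sum fun m hm => ?_
    obtain ⟨hm1, hm2⟩ := Finset.mem_Icc.mp hm
    have hm0 : (0 : ℝ) < m := by exact_mod_cast hm1
    have h2 : Real.log X - Real.log m ≤ X / m := by
      rw [← Real.log_div hX0.ne' hm0.ne']
      have := Real.log_le_sub_one_of_pos (show (0 : ℝ) < X / m by positivity)
      linarith
    have h3 := mul_le_mul_of_nonneg_left h2 (hf m)
    have h4 : (X : ℝ) * (f m / m) = f m * (X / m) := by ring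
    rw [h4]
    nlinarith
  have h7 : (∑ n ∈ Icc 1 X, f n) * Real.log X ≤ (2 * K + 1) * X * ∑ n ∈ Icc 1 X, f n / n := by
    linarith
  calc ∑ n ∈ Icc 1 X, f n ≤ ((2 * K + 1) * X * ∑ n ∈ Icc 1 X, f n / n) / Real.log X := by
        rw [le_div_iff₀ hlog]
        exact h7
    _ = (2 * K + 1) * X / Real.log X * ∑ n ∈ Icc 1 X, f n / n := by ring

end Pool.Agent.L7h60.BP
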